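import Pool.Agent.Helper98.EQ.Goals
import Mathlib

/-!
Project EQ (MP_5b9a11_al), packet BLK: the blocks.
-/

set_option autoImplicit false
set_option linter.unusedSectionVars false

namespace Pool.Agent.Helper43.EQ.BLK

open MonoidAlgebra IsLocalRing Pool.Agent.Helper17.PF
open Pool.Agent.Helper47.EP (Dat Chr Hs Om ee ev kap dm pHB pSIM pRHO)
open Pool.Agent.Helper98.EQ

variable {p : ℕ} {T : Dat p} {A : Type} [Fintype A] [DecidableEq A] {D : Type} [Group D]
  (M : SA T A D)

theorem m_zero (d : D) : M.m d 0 = 0 := by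
  have h := M.add d 0 0
  rw [add_zero] at h
  exact left_eq_add.1 h

theorem inE_single {R : Type} [CommRing R] (h : Hs T A) (r : R) :
    inE M R (single h r) = single (SemidirectProduct.inl h : GG M) r := by
  unfold inE
  simp

theorem inE_algebraMap {R : Type} [CommRing R] (r : R) :
    inE M R (algebraMap R (MonoidAlgebra R (Hs T A)) r) =
      algebraMap R (MonoidAlgebra R (GG M)) r := by
  have h1 : algebraMap R (MonoidAlgebra R (Hs T A)) r = single (1 : Hs T A) r := rfl
  have h2 : algebraMap R (MonoidAlgebra R (GG M)) r = single (1 : GG M) r := rfl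
  rw [h1, h2, inE_single, map_one]

theorem inE_smul {R : Type} [CommRing R] (r : R) (x : MonoidAlgebra R (Hs T A)) :
    inE M R (r • x) = r • inE M R x := by
  rw [Algebra.smul_def, Algebra.smul_def, map_mul, inE_algebraMap]

theorem inr_comm {R : Type} [CommRing R] (d : D) (z : ZMod T.l) (c : R) :
    Commute (single (SemidirectProduct.inr d : GG M) (1 : R))
      (inE M R (single (⟨0, z⟩ : Hs T A) c)) := by
  rw [inE_single]
  show _ * _ = _ * _
  rw [single_mul_single, single_mul_single, one_mul, mul_one]
  have h1 : (SemidirectProduct.inr d : GG M) * SemidirectProduct.inl (⟨0, z⟩ : Hs T A) =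
      SemidirectProduct.inl (⟨0, z⟩ : Hs T A) * SemidirectProduct.inr d := by
    apply SemidirectProduct.ext
    · rw [SemidirectProduct.mul_left, SemidirectProduct.mul_left]
      simp only [SemidirectProduct.left_inr, SemidirectProduct.right_inr,
        SemidirectProduct.left_inl, SemidirectProduct.right_inl, one_mul, map_one, mul_one]
      rw [SA.s_apply]
      apply Pool.Agent.Helper47.EP.Hs.ext
      · exact m_zero M d
      · rfl
    · simp
  rw [h1]

theorem ee_inr {R : Type} [CommRing R] (C : Chr T R) (d : D) :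
    Commute (single (SemidirectProduct.inr d : GG M) (1 : R)) (inE M R (ee C A)) := by
  unfold ee
  rw [inE_smul, map_sum]
  exact (Commute.sum_right _ _ _ fun z _ => inr_comm M d z _).smul_right _

theorem ee_central [Fact p.Prime] {R : Type} [CommRing R] (C : Chr T R)
    (x : MonoidAlgebra R (GG M)) : Commute x (inE M R (ee C A)) := by
  induction x using MonoidAlgebra.induction_linear with
  | zero => exact Commute.zero_left _
  | add x y hx hy => exact hx.add_left hy
  | single g r =>
    have h1 : (single g r : MonoidAlgebra R (GG M)) =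
        r • (inE M R (single g.left (1 : R)) *
          single (SemidirectProduct.inr g.right : GG M) (1 : R)) := by
      rw [inE_single, single_mul_single, SemidirectProduct.inl_left_mul_inr_right, mul_one,
        smul_single, smul_eq_mul, mul_one]
    rw [h1]
    refine Commute.smul_left (Commute.mul_left ?_ (ee_inr M C _)) _
    show _ * _ = _ * _
    rw [← map_mul, ← map_mul, (pHB p T A R C).2.1]

theorem ee_ne [Fact p.Prime] {F : Type} [Field F] (C : Chr T F) : ee C A ≠ 0 := by
  intro h0
  have h1 := (pHB p T A F C).2.2.2.2.1 0 (⟨0, 0⟩ : Hs T A)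
  unfold ev at h1
  rw [h0, mul_zero] at h1
  rw [if_pos rfl] at h1
  simp only [coeff_zero, Finsupp.coe_zero, Pi.zero_apply] at h1
  have h2 := C.il_mul
  have h3 : C.il ≠ 0 := by
    intro h
    rw [h, zero_mul] at h2
    exact zero_ne_one h2
  have h4 : C.ψ (-(0 : ZMod T.l)) = 1 := by
    rw [neg_zero, AddChar.map_zero_eq_one]
  have h5 : (0 : F) = C.il * C.ψ (-(0 : ZMod T.l)) := h1
  rw [h4, mul_one] at h5
  exact h3 h5.symm

theorem th_zero {R : Type} [CommRing R] {C : Chr T R} (I : Imp M C) :
    th I (0 : MonoidAlgebra R (GG M)) = 0 := by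
  unfold th
  rw [coeff_zero, Finsupp.sum_zero_index]

theorem field_case (hTH : S_TH) (hNIL : S_NIL) [Fact p.Prime]
    [Finite D] (hD : IsPGroup p D) (F : Type) [Field F] [CharP F p] (C : Chr T F)
    (I : Imp M C) : IsBlock (inE M F (ee C A)) := by
  obtain ⟨t1, t2, -, t4, -, t6, t7, t8⟩ := hTH p T A D M F C I
  have hee := (pHB p T A F C).1
  have hidem : inE M F (ee C A) * inE M F (ee C A) = inE M F (ee C A) := by
    rw [← map_mul, hee]
  have hthb : th I (inE M F (ee C A)) = ee C A := by rw [t2, hee]
  refine ⟨?_, hidem, ?_, ?_⟩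
  · rw [Semigroup.mem_center_iff]
    intro g
    exact ee_central M C g
  · intro h0
    rw [h0, th_zero] at hthb
    exact ee_ne C hthb.symm
  · intro f hf hff hbf hfb
    rw [Semigroup.mem_center_iff] at hf
    have hcomm : ∀ v : A → T.K, ev C v * th I f = th I f * ev C v := by
      intro v
      have h1 : ev C v = th I (inE M F (single (⟨v, 0⟩ : Hs T A) (1 : F))) := by
        rw [t2]
        rfl
      rw [h1, ← t1, ← t1, hf]
    obtain ⟨c, hc⟩ := (pSIM p T A F C).1 (th I f) (t4 f) hcomm
    have hcc : (c * c) • ee C A = c • ee C A := by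
      have h1 : th I f * th I f = th I f := by rw [← t1, hff]
      rw [hc, smul_mul_smul_comm, hee] at h1
      exact h1
    have hc2 : c * c = c := by
      have h1 : (c * c - c) • ee C A = 0 := by rw [sub_smul, hcc, sub_self]
      rcases smul_eq_zero.1 h1 with h2 | h2
      · exact sub_eq_zero.1 h2
      · exact absurd h2 (ee_ne C)
    have hc3 : c = 0 ∨ c = 1 := by
      by_cases h : c = 0
      · exact Or.inl h
      · exact Or.inr (mul_left_cancel₀ h (by rw [hc2, mul_one]))
    rcases hc3 with rfl | rfl
    · left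
      rw [zero_smul] at hc
      exact hNIL p T A F C D hD M I f hff hbf hc
    · right
      rw [one_smul] at hc
      have h1 : th I (inE M F (ee C A) - f) = 0 := by
        have h2 : inE M F (ee C A) - f = inE M F (ee C A) + (-1 : F) • f := by
          rw [neg_smul, one_smul, sub_eq_add_neg]
        rw [h2, t6, t7, hthb, hc, neg_smul, one_smul, add_neg_cancel]
      have h3 : (inE M F (ee C A) - f) * (inE M F (ee C A) - f) = inE M F (ee C A) - f := by
        rw [mul_sub, sub_mul, sub_mul, hidem, hbf, hfb, hff, sub_self, sub_zero]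
      have h4 : inE M F (ee C A) * (inE M F (ee C A) - f) = inE M F (ee C A) - f := by
        rw [mul_sub, hidem, hbf]
      exact (sub_eq_zero.1 (hNIL p T A F C D hD M I _ h3 h4 h1)).symm

theorem mapRing_inE {R S : Type} [CommRing R] [CommRing S] (f : R →+* S)
    (y : MonoidAlgebra R (Hs T A)) :
    MonoidAlgebra.mapRingHom (GG M) f (inE M R y) =
      inE M S (MonoidAlgebra.mapRingHom (Hs T A) f y) := by
  induction y using MonoidAlgebra.induction_linear with
  | zero => simp only [map_zero]
  | add x y hx hy => simp only [map_add, hx, hy]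
  | single g r => rw [inE_single, mapRingHom_single, mapRingHom_single, inE_single]

theorem t (hTH : S_TH) (hNIL : S_NIL) : S_BLK := by
  intro p _ T A _ _ D _ _ hD M
  refine ⟨fun F _ _ C I => field_case M hTH hNIL hD F C I, ?_⟩
  intro 𝒪 _ _ _ _ C I
  have hfin : Finite (GG M) := Finite.of_equiv _ SemidirectProduct.equivProd.symm
  have hk := field_case M hTH hNIL hD (ResidueField 𝒪) (C.map (residue 𝒪)) (I.map (residue 𝒪))
  have hred : red 𝒪 (GG M) (inE M 𝒪 (ee C A)) =
      inE M (ResidueField 𝒪) (ee (C.map (residue 𝒪)) A) := by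
    unfold red
    rw [mapRing_inE, ((pHB p T A 𝒪 C).2.2.2.2.2.2 (ResidueField 𝒪) (residue 𝒪)).1]
  rw [← hred] at hk
  obtain ⟨-, -, hne, hprim⟩ := hk
  have hidem : inE M 𝒪 (ee C A) * inE M 𝒪 (ee C A) = inE M 𝒪 (ee C A) := by
    rw [← map_mul, (pHB p T A 𝒪 C).1]
  refine ⟨?_, hidem, ?_, ?_⟩
  · rw [Semigroup.mem_center_iff]
    intro g
    exact ee_central M C g
  · intro h0
    rw [h0, map_zero] at hne
    exact hne rfl
  · intro f hf hff hbf hfb
    rw [Semigroup.mem_center_iff] at hf
    have h1 : red 𝒪 (GG M) f ∈ Set.center (MonoidAlgebra (ResidueField 𝒪) (GG M)) := by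
      rw [Semigroup.mem_center_iff]
      intro y
      obtain ⟨x, rfl⟩ := red_surjective (L := GG M) (𝒪 := 𝒪) y
      rw [← map_mul, ← map_mul, hf]
    rcases hprim _ h1 (by rw [← map_mul, hff]) (by rw [← map_mul, hbf])
      (by rw [← map_mul, hfb]) with h2 | h2
    · exact Or.inl (idem_zero hff h2)
    · right
      have h3 : (inE M 𝒪 (ee C A) - f) * (inE M 𝒪 (ee C A) - f) =
          inE M 𝒪 (ee C A) - f := by
        rw [mul_sub, sub_mul, sub_mul, hidem, hbf, hfb, hff, sub_self, sub_zero]
      have h4 : red 𝒪 (GG M) (inE M 𝒪 (ee C A) - f) = 0 := by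
        rw [map_sub, h2, sub_self]
      exact (sub_eq_zero.1 (idem_zero h3 h4)).symm

end Pool.Agent.Helper43.EQ.BLK
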